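import Pool.Agent.Helper51.PF.Goals

/-!
# Packet PF-BON (Bonferroni inequalities for general weights)
-/

set_option autoImplicit false

open Finset

namespace Pool.Agent.Helper93.PF

open Pool.Agent.Helper51.PF

theorem esum_zero (Z : Finset ℕ) (b : ℕ → ℝ) : esum Z b 0 = 1 := by
  unfold esum
  rw [Finset.powersetCard_zero, Finset.sum_singleton, Finset.prod_empty]

theorem esum_insert (Z : Finset ℕ) (b : ℕ → ℝ) (z : ℕ) (hz : z ∉ Z) (q : ℕ) :
    esum (insert z Z) b (q + 1) = esum Z b (q + 1) + b z * esum Z b q := by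
  unfold esum
  rw [Finset.powersetCard_succ_insert hz, Finset.sum_union, Finset.sum_image, Finset.mul_sum]
  · congr 1
    refine Finset.sum_congr rfl fun R hR => ?_
    have h : z ∉ R := fun h => hz ((Finset.mem_powersetCard.1 hR).1 h)
    rw [Finset.prod_insert h]
  · intro R hR R' hR' h
    have h1 : z ∉ R := fun h => hz ((Finset.mem_powersetCard.1 hR).1 h)
    have h2 : z ∉ R' := fun h => hz ((Finset.mem_powersetCard.1 hR').1 h)
    have h3 : (insert z R).erase z = (insert z R').erase z := by
      change insert z R = insert z R' at h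
      rw [h]
    rwa [Finset.erase_insert h1, Finset.erase_insert h2] at h3
  · rw [Finset.disjoint_left]
    intro R hR hR'
    obtain ⟨R'', -, h⟩ := Finset.mem_image.1 hR'
    exact hz ((Finset.mem_powersetCard.1 hR).1 (by rw [← h]; exact Finset.mem_insert_self _ _))

theorem rec_insert (Z : Finset ℕ) (b : ℕ → ℝ) (z : ℕ) (hz : z ∉ Z) (K : ℕ) :
    ∑ j ∈ range (K + 1 + 1), (-1 : ℝ) ^ j * esum (insert z Z) b j =
      ∑ j ∈ range (K + 1 + 1), (-1 : ℝ) ^ j * esum Z b j -
        b z * ∑ j ∈ range (K + 1), (-1 : ℝ) ^ j * esum Z b j := by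
  rw [Finset.sum_range_succ' (fun j => (-1 : ℝ) ^ j * esum (insert z Z) b j),
    Finset.sum_range_succ' (fun j => (-1 : ℝ) ^ j * esum Z b j), esum_zero, esum_zero,
    Finset.mul_sum]
  have h : ∑ j ∈ range (K + 1), (-1 : ℝ) ^ (j + 1) * esum (insert z Z) b (j + 1)
      = ∑ j ∈ range (K + 1), (-1 : ℝ) ^ (j + 1) * esum Z b (j + 1)
        - ∑ j ∈ range (K + 1), b z * ((-1 : ℝ) ^ j * esum Z b j) := by
    rw [← Finset.sum_sub_distrib]
    refine Finset.sum_congr rfl fun j _ => ?_
    rw [esum_insert Z b z hz, pow_succ]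
    ring
  rw [h]
  ring

theorem g_bon : G_BON := by
  intro Z b hb
  induction Z using Finset.induction_on with
  | empty =>
    intro K
    have h : ∑ j ∈ range (K + 1), (-1 : ℝ) ^ j * esum ∅ b j = 1 := by
      rw [Finset.sum_range_succ', esum_zero]
      have h0 : ∑ j ∈ range K, (-1 : ℝ) ^ (j + 1) * esum ∅ b (j + 1) = 0 := by
        refine Finset.sum_eq_zero fun j _ => ?_
        have : esum ∅ b (j + 1) = 0 := by
          unfold esum
          rw [Finset.powersetCard_eq_empty.2 (by simp), Finset.sum_empty]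
        rw [this, mul_zero]
      rw [h0]; norm_num
    rw [h, Finset.prod_empty]
    exact ⟨fun _ => le_rfl, fun _ => le_rfl⟩
  | insert z Z hz ih =>
    intro K
    rw [Finset.prod_insert hz]
    have hp0 : 0 ≤ ∏ r ∈ Z, (1 - b r) := Finset.prod_nonneg fun r _ => by
      have := (hb r).2; linarith
    have hp1 : ∏ r ∈ Z, (1 - b r) ≤ 1 := Finset.prod_le_one
      (fun r _ => by have := (hb r).2; linarith) (fun r _ => by have := (hb r).1; linarith)
    have hz0 := (hb z).1
    have hz1 := (hb z).2
    rcases K with _ | K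
    · refine ⟨fun _ => ?_, fun h => ?_⟩
      · rw [Finset.sum_range_succ, Finset.sum_range_zero, esum_zero]
        have : b z * ∏ r ∈ Z, (1 - b r) ≥ 0 := mul_nonneg hz0 hp0
        have h2 : (1 - b z) * ∏ r ∈ Z, (1 - b r)
            = ∏ r ∈ Z, (1 - b r) - b z * ∏ r ∈ Z, (1 - b r) := by ring
        rw [h2]
        norm_num
        linarith
      · exact absurd h (by decide)
    · rw [rec_insert Z b z hz K]
      have h2 : (1 - b z) * ∏ r ∈ Z, (1 - b r)
          = ∏ r ∈ Z, (1 - b r) - b z * ∏ r ∈ Z, (1 - b r) := by ring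
      rw [h2]
      obtain ⟨i1, i2⟩ := ih (K + 1)
      obtain ⟨j1, j2⟩ := ih K
      refine ⟨fun h => ?_, fun h => ?_⟩
      · have hK : Odd K := by
          rw [Nat.even_add_one, Nat.not_even_iff_odd] at h
          exact h
        have a1 := i1 h
        have a2 := mul_le_mul_of_nonneg_left (j2 hK) hz0
        linarith
      · have hK : Even K := by
          rw [Nat.odd_add_one, Nat.not_odd_iff_even] at h
          exact h
        have a1 := i2 h
        have a2 := mul_le_mul_of_nonneg_left (j1 hK) hz0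
        linarith

end Pool.Agent.Helper93.PF
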